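import Pool.Agent.H305rw.Trade

/-!
The clean trade-off, and the negated form of the question.
-/

namespace Pool.Agent.H305rw

open MeasureTheory Filter

/-- A set of core vertices inside `Fin n`. -/
theorem exists_enc {n d : ℕ} (h : 4 * d ≤ n) : Nonempty (Core d ↪ Fin n) := by
  refine Function.Embedding.nonempty_of_card_le ?_
  simp only [Fintype.card_prod, Fintype.card_bool, Fintype.card_fin]
  omega

theorem tradeoff {Ω σ : Type} [MeasurableSpace Ω] [Fintype σ] (μ : Measure Ω)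
    [IsProbabilityMeasure μ] {n p l : ℕ} (alg : Fin n → Ω → Machine n σ) (hp : 1 ≤ p)
    (hn : 4 ≤ n) (hl : 48 * p * l ≤ (n / 4) ^ 2) (hsim : Simulates μ alg p l) :
    2 ^ (l / (16 * p)) ≤ (4 * p + 2) * Fintype.card σ := by
  set d := n / 4 with hd
  have hd1 : 1 ≤ d := by omega
  have : NeZero d := ⟨by omega⟩
  obtain ⟨enc⟩ := exists_enc (n := n) (d := d) (by omega)
  have hΩ : Nonempty Ω := μ.nonempty_of_neZero
  have hσ : 1 ≤ Fintype.card σ :=
    Fintype.card_pos_iff.2 ⟨(alg ⟨0, by omega⟩ hΩ.some).init⟩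
  by_cases hsmall : l < 32 * p
  · have h1 : l / (16 * p) ≤ 1 := by
      rw [← Nat.lt_succ_iff, Nat.div_lt_iff_lt_mul (by omega)]
      omega
    calc 2 ^ (l / (16 * p)) ≤ 2 ^ 1 := Nat.pow_le_pow_right (by norm_num) h1
      _ ≤ (4 * p + 2) * Fintype.card σ := by nlinarith
  · push Not at hsmall
    set r := l / (16 * p) with hr
    have hr1 : 16 * p * r ≤ l := Nat.mul_div_le _ _
    have hr2 : l < 16 * p * (r + 1) := Nat.lt_mul_div_succ _ (by omega)
    have e1 : (2 * p + 1) * (2 * (r + r) + 1) ≤ l := by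
      calc (2 * p + 1) * (2 * (r + r) + 1) ≤ (3 * p) * (2 * (r + r) + 1) :=
            Nat.mul_le_mul_right _ (by omega)
        _ = 12 * (p * r) + 3 * p := by ring
        _ ≤ l := by
          have : 16 * (p * r) ≤ l := by rw [← mul_assoc]; exact hr1
          omega
    have e2 : 3 * l ^ 2 ≤ d ^ 2 * (r + 1) := by
      calc 3 * l ^ 2 = 3 * l * l := by ring
        _ ≤ 3 * l * (16 * p * (r + 1)) := Nat.mul_le_mul_left _ hr2.le
        _ = 48 * p * l * (r + 1) := by ring
        _ ≤ d ^ 2 * (r + 1) := Nat.mul_le_mul_right _ hl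
    have := tradeoff_raw enc μ alg e1 e2 hsim
    calc 2 ^ r ≤ 2 * ((2 * p + 1) * Fintype.card σ) := this
      _ = _ := by ring

/-- The numerical heart of the negated form. -/
theorem no_sim_nat {Ω σ : Type} [MeasurableSpace Ω] [Fintype σ] (μ : Measure Ω)
    [IsProbabilityMeasure μ] {n p P S l : ℕ} (alg : Fin n → Ω → Machine n σ) (hn : 4 ≤ n)
    (hP : 1 ≤ P) (hp : p ≤ P) (hS : S ≤ n * P) (hσ : Fintype.card σ ≤ 2 ^ S)
    (hl1 : 96 * P ^ 2 * n < l) (hl2 : 3072 * P * l ≤ n ^ 2) : ¬ Simulates μ alg p l := by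
  intro hsim
  set d := n / 4 with hd
  have hd1 : 1 ≤ d := by omega
  have : NeZero d := ⟨by omega⟩
  obtain ⟨enc⟩ := exists_enc (n := n) (d := d) (by omega)
  set r := l / (16 * P) with hr
  have hr1 : 16 * P * r ≤ l := Nat.mul_div_le _ _
  have hr2 : l < 16 * P * (r + 1) := Nat.lt_mul_div_succ _ (by omega)
  have hPn : P * P * 4 ≤ P ^ 2 * n := by
    calc P * P * 4 = P ^ 2 * 4 := by ring
      _ ≤ _ := Nat.mul_le_mul_left _ hn
  have hPP : P ≤ P * P := Nat.le_mul_of_pos_left P (by omega)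
  have e1 : (2 * p + 1) * (2 * (r + r) + 1) ≤ l := by
    calc (2 * p + 1) * (2 * (r + r) + 1) ≤ (3 * P) * (2 * (r + r) + 1) :=
          Nat.mul_le_mul_right _ (by omega)
      _ = 12 * (P * r) + 3 * P := by ring
      _ ≤ l := by
        have h1 : 16 * (P * r) ≤ l := by rw [← mul_assoc]; exact hr1
        have h2 : 96 * (P ^ 2 * n) < l := by rw [← mul_assoc]; exact hl1
        omega
  have e2 : 3 * l ^ 2 ≤ d ^ 2 * (r + 1) := by
    have h8 : n ≤ 8 * d := by omega
    have h3 : 64 * (3 * l ^ 2) ≤ 64 * (d ^ 2 * (r + 1)) := by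
      calc 64 * (3 * l ^ 2) = 192 * l * l := by ring
        _ ≤ 192 * l * (16 * P * (r + 1)) := Nat.mul_le_mul_left _ hr2.le
        _ = 3072 * P * l * (r + 1) := by ring
        _ ≤ n ^ 2 * (r + 1) := Nat.mul_le_mul_right _ hl2
        _ ≤ (8 * d) ^ 2 * (r + 1) := Nat.mul_le_mul_right _ (Nat.pow_le_pow_left h8 2)
        _ = _ := by ring
    exact Nat.le_of_mul_le_mul_left h3 (by norm_num)
  have h4 := tradeoff_raw enc μ alg e1 e2 hsim
  have h5 : 2 ^ r ≤ 2 ^ (1 + (2 * P + 1) + n * P) := by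
    calc 2 ^ r ≤ 2 * ((2 * p + 1) * Fintype.card σ) := h4
      _ ≤ 2 * ((2 * P + 1) * 2 ^ (n * P)) := by
        refine Nat.mul_le_mul_left _ (Nat.mul_le_mul (by omega) (hσ.trans ?_))
        exact Nat.pow_le_pow_right (by norm_num) hS
      _ ≤ 2 * (2 ^ (2 * P + 1) * 2 ^ (n * P)) :=
        Nat.mul_le_mul_left _ (Nat.mul_le_mul_right _ (Nat.lt_two_pow_self).le)
      _ = _ := by rw [pow_add, pow_add, pow_one]; ring
  have h6 : r ≤ 1 + (2 * P + 1) + n * P := (Nat.pow_le_pow_iff_right (by norm_num)).1 h5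
  have h7 : l < 16 * P * (6 * (n * P)) := by
    refine hr2.trans_le (Nat.mul_le_mul_left _ ?_)
    have : 4 * P ≤ n * P := Nat.mul_le_mul_right _ hn
    omega
  have h8 : 16 * P * (6 * (n * P)) = 96 * P ^ 2 * n := by ring
  omega

theorem negated_form (c : ℕ) (C : ℝ) : ∃ K : ℕ, ∀ᶠ n : ℕ in atTop,
    ∀ (l p S : ℕ), l = n * Nat.log 2 n ^ K →
      (p : ℝ) ≤ C * Real.log (n + l) ^ c → (S : ℝ) ≤ C * n * Real.log (n + l) ^ c →
      ∀ (Ω σ : Type) [MeasurableSpace Ω] [Fintype σ] (μ : Measure Ω) [IsProbabilityMeasure μ]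
        (alg : Fin n → Ω → Machine n σ), Fintype.card σ ≤ 2 ^ S → ¬ Simulates μ alg p l := by
  obtain ⟨A, hA⟩ := exists_nat_ge (max C 1)
  have hAC : C ≤ A := (le_max_left _ _).trans hA
  have hA1 : 1 ≤ A := by exact_mod_cast (le_max_right C 1).trans hA
  set a := A * 2 ^ c with ha
  have ha1 : 1 ≤ a := Nat.one_le_iff_ne_zero.2 (by positivity)
  refine ⟨2 * c + 1, ?_⟩
  -- growth of `2 ^ L`
  have hgrow : ∀ᶠ L : ℕ in atTop, 3072 * a * L ^ (3 * c + 1) ≤ 2 ^ L := by
    have h1 := (isLittleO_pow_const_const_pow_of_one_lt (R := ℝ) (3 * c + 1)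
      (one_lt_two)).def (c := 1 / (3072 * a)) (by positivity)
    filter_upwards [h1] with L hL
    rw [Real.norm_of_nonneg (by positivity), Real.norm_of_nonneg (by positivity),
      div_mul_eq_mul_div, one_mul, le_div_iff₀ (by positivity)] at hL
    have : ((3072 * a * L ^ (3 * c + 1) : ℕ) : ℝ) ≤ ((2 ^ L : ℕ) : ℝ) := by
      push_cast
      linarith
    exact_mod_cast this
  obtain ⟨L₀, hL₀⟩ := eventually_atTop.1 hgrow
  set L₁ := max L₀ (96 * a ^ 2 + 4) with hL₁
  refine eventually_atTop.2 ⟨2 ^ L₁, ?_⟩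
  intro n hn l p S hl hp hS Ω σ _ _ μ _ alg hσ
  set L := Nat.log 2 n with hL
  have hn0 : n ≠ 0 := by
    have : 0 < 2 ^ L₁ := by positivity
    omega
  have hLL : L₁ ≤ L := Nat.le_log_of_pow_le (by norm_num) hn
  have hL0 : L₀ ≤ L := (le_max_left _ _).trans hLL
  have hL96 : 96 * a ^ 2 + 4 ≤ L := (le_max_right _ _).trans hLL
  have h2L : 2 ^ L ≤ n := Nat.pow_log_le_self 2 hn0
  have h2L' : n < 2 ^ (L + 1) := Nat.lt_pow_succ_log_self (by norm_num) n
  have hg := hL₀ L hL0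
  have hn4 : 4 ≤ n := by
    have : 2 ^ 2 ≤ 2 ^ L := Nat.pow_le_pow_right (by norm_num) (by omega)
    omega
  -- `n + l ≤ n ^ 2`
  have hLK : 1 + L ^ (2 * c + 1) ≤ n := by
    have h1 : L ^ (2 * c + 1) ≤ L ^ (3 * c + 1) := Nat.pow_le_pow_right (by omega) (by omega)
    have h2 : 1 ≤ L ^ (3 * c + 1) := Nat.one_le_pow _ _ (by omega)
    have h3 : 2 * L ^ (3 * c + 1) ≤ 3072 * a * L ^ (3 * c + 1) :=
      Nat.mul_le_mul_right _ (by omega)
    omega
  have hnl : n + l ≤ n ^ 2 := by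
    rw [hl]
    calc n + n * L ^ (2 * c + 1) = n * (1 + L ^ (2 * c + 1)) := by ring
      _ ≤ n * n := Nat.mul_le_mul_left _ hLK
      _ = n ^ 2 := by ring
  -- the logarithm
  have hlog : Real.log (n + l) ≤ 2 * L := by
    have hnR : (0 : ℝ) < n := by positivity
    have h1 : Real.log (n + l) ≤ Real.log ((n : ℝ) ^ 2) := by
      refine Real.log_le_log (by positivity) ?_
      exact_mod_cast hnl
    have h2 : Real.log n ≤ (L + 1) * Real.log 2 := by
      have : (n : ℝ) ≤ 2 ^ (L + 1) := by exact_mod_cast h2L'.le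
      calc Real.log n ≤ Real.log (2 ^ (L + 1)) := Real.log_le_log hnR this
        _ = _ := by rw [Real.log_pow]; push_cast; ring
    have h3 : Real.log 2 < 0.7 := lt_trans Real.log_two_lt_d9 (by norm_num)
    have h4 : (4 : ℝ) ≤ L := by exact_mod_cast (show 4 ≤ L by omega)
    rw [Real.log_pow] at h1
    push_cast at h1
    nlinarith
  have hlog0 : 0 ≤ Real.log (n + l) := by
    refine Real.log_nonneg ?_
    have : (1 : ℝ) ≤ n := by exact_mod_cast (show 1 ≤ n by omega)
    have : (0 : ℝ) ≤ l := by positivity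
    linarith
  have hpow : Real.log (n + l) ^ c ≤ (2 * L) ^ c := pow_le_pow_left₀ hlog0 hlog c
  have hpow0 : 0 ≤ Real.log (n + l) ^ c := pow_nonneg hlog0 c
  set P := a * L ^ c with hPdef
  have hP : 1 ≤ P := Nat.one_le_iff_ne_zero.2 (by
    have : 0 < L := by omega
    positivity)
  have hPR : (A : ℝ) * (2 * L) ^ c = P := by
    rw [hPdef, ha]; push_cast; rw [mul_pow]; ring
  have hpP : p ≤ P := by
    have : (p : ℝ) ≤ P := by
      rw [← hPR]
      calc (p : ℝ) ≤ C * Real.log (n + l) ^ c := hp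
        _ ≤ A * Real.log (n + l) ^ c := mul_le_mul_of_nonneg_right hAC hpow0
        _ ≤ A * (2 * L) ^ c := mul_le_mul_of_nonneg_left hpow (by positivity)
    exact_mod_cast this
  have hSP : S ≤ n * P := by
    have : (S : ℝ) ≤ n * P := by
      rw [← hPR]
      calc (S : ℝ) ≤ C * n * Real.log (n + l) ^ c := hS
        _ = n * (C * Real.log (n + l) ^ c) := by ring
        _ ≤ n * (A * (2 * L) ^ c) := by
          refine mul_le_mul_of_nonneg_left ?_ (by positivity)
          calc C * Real.log (n + l) ^ c ≤ A * Real.log (n + l) ^ c :=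
                mul_le_mul_of_nonneg_right hAC hpow0
            _ ≤ A * (2 * L) ^ c := mul_le_mul_of_nonneg_left hpow (by positivity)
    exact_mod_cast this
  refine no_sim_nat μ alg hn4 hP hpP hSP hσ ?_ ?_
  · rw [hl, hPdef]
    have h1 : 96 * a ^ 2 < L := by omega
    calc 96 * (a * L ^ c) ^ 2 * n = (96 * a ^ 2) * (n * L ^ (2 * c)) := by ring
      _ < L * (n * L ^ (2 * c)) := by
        refine Nat.mul_lt_mul_of_pos_right h1 ?_
        have : 0 < L := by omega
        positivity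
      _ = _ := by ring
  · rw [hl, hPdef]
    calc 3072 * (a * L ^ c) * (n * L ^ (2 * c + 1)) = n * (3072 * a * L ^ (3 * c + 1)) := by
          rw [show 3 * c + 1 = c + (2 * c + 1) by ring, pow_add L c]; ring
      _ ≤ n * n := Nat.mul_le_mul_left _ (hg.trans h2L)
      _ = _ := by ring

end Pool.Agent.H305rw
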