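import Mathlib

/-!
Lists: consecutive pairs, repeats, and the expected number of repeats in a uniformly random list.
-/

namespace Pool.Agent.H305rw

/-- Consecutive pairs of a list. -/
def steps {α : Type} : List α → List (α × α)
  | [] => []
  | [_] => []
  | a :: b :: L => (a, b) :: steps (b :: L)

/-- Number of occurrences. -/
def cnt {α : Type} [DecidableEq α] (a : α) (L : List α) : ℕ := L.count a

/-- Number of pairs of positions with equal entries. -/
def reps {α : Type} [DecidableEq α] : List α → ℕ
  | [] => 0
  | a :: L => cnt a L + reps L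

theorem steps_cons_sublist {α : Type} (a : α) (L : List α) :
    (steps L).Sublist (steps (a :: L)) := by
  cases L with
  | nil => simp [steps]
  | cons b L => simp [steps]

theorem steps_append_left {α : Type} (L₁ L₂ : List α) :
    (steps L₁).Sublist (steps (L₁ ++ L₂)) := by
  induction L₁ with
  | nil => simp [steps]
  | cons a L ih =>
    cases L with
    | nil => simp [steps]
    | cons b L => simpa [steps] using ih

theorem steps_append_right {α : Type} (L₁ L₂ : List α) :
    (steps L₂).Sublist (steps (L₁ ++ L₂)) := by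
  induction L₁ with
  | nil => simp
  | cons a L ih => exact ih.trans (by simpa using steps_cons_sublist a (L ++ L₂))

theorem steps_map {α β : Type} (f : α → β) (L : List α) :
    steps (L.map f) = (steps L).map (Prod.map f f) := by
  induction L with
  | nil => simp [steps]
  | cons a L ih =>
    cases L with
    | nil => simp [steps]
    | cons b L => simpa [steps] using ih

theorem reps_sublist {α : Type} [DecidableEq α] {L₁ L₂ : List α} (h : L₁.Sublist L₂) :
    reps L₁ ≤ reps L₂ := by
  induction h with
  | slnil => simp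
  | cons a h ih => simp only [reps]; omega
  | cons_cons a h ih =>
    simp only [reps, cnt]
    have := h.count_le a
    omega

theorem reps_map {α β : Type} [DecidableEq α] [DecidableEq β] (f : α → β) (L : List α) :
    reps L ≤ reps (L.map f) := by
  induction L with
  | nil => simp [reps]
  | cons a L ih =>
    simp only [reps, cnt, List.map_cons]
    have := List.count_le_count_map (l := L) (f := f) (x := a)
    omega

theorem length_le_card_add_reps {α : Type} [DecidableEq α] (L : List α) :
    L.length ≤ L.toFinset.card + reps L := by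
  induction L with
  | nil => simp [reps]
  | cons a L ih =>
    simp only [reps, cnt, List.length_cons, List.toFinset_cons]
    by_cases h : a ∈ L
    · have h1 : 0 < L.count a := List.count_pos_iff.2 h
      have h2 : (insert a L.toFinset).card = L.toFinset.card := by
        rw [Finset.insert_eq_of_mem (by simpa using h)]
      omega
    · have h2 : (insert a L.toFinset).card = L.toFinset.card + 1 := by
        rw [Finset.card_insert_of_notMem (by simpa using h)]
      omega

/-- Sum of `f` over all lists of length `l`. -/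
def Sm {d : ℕ} : ℕ → (List (Fin d) → ℕ) → ℕ
  | 0, f => f []
  | l + 1, f => ∑ i, Sm l fun r => f (i :: r)

theorem Sm_add {d : ℕ} (l : ℕ) (f g : List (Fin d) → ℕ) :
    Sm l (fun r => f r + g r) = Sm l f + Sm l g := by
  induction l generalizing f g with
  | zero => simp [Sm]
  | succ l ih => simp only [Sm]; rw [← Finset.sum_add_distrib]; simp_rw [ih]

theorem Sm_const {d : ℕ} (l : ℕ) (c : ℕ) :
    Sm l (fun _ : List (Fin d) => c) = c * d ^ l := by
  induction l with
  | zero => simp [Sm]
  | succ l ih => simp only [Sm]; simp_rw [ih]; simp; ring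

theorem Sm_mono {d : ℕ} (l : ℕ) {f g : List (Fin d) → ℕ} (h : ∀ r, f r ≤ g r) :
    Sm l f ≤ Sm l g := by
  induction l generalizing f g with
  | zero => simpa [Sm] using h []
  | succ l ih => simp only [Sm]; exact Finset.sum_le_sum fun i _ => ih fun r => h _

theorem Sm_mono_length {d : ℕ} (l : ℕ) {f g : List (Fin d) → ℕ}
    (h : ∀ r, r.length = l → f r ≤ g r) : Sm l f ≤ Sm l g := by
  induction l generalizing f g with
  | zero => simpa [Sm] using h [] rfl
  | succ l ih =>
    simp only [Sm]
    exact Finset.sum_le_sum fun i _ => ih fun r hr => h _ (by simp [hr])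

theorem Sm_mul {d : ℕ} (l c : ℕ) (f : List (Fin d) → ℕ) :
    Sm l (fun r => c * f r) = c * Sm l f := by
  induction l generalizing f with
  | zero => simp [Sm]
  | succ l ih => simp only [Sm]; simp_rw [ih]; rw [Finset.mul_sum]

theorem count_rec {d l : ℕ} (a c b : Fin d) :
    Sm (l + 1) (fun r => cnt (a, c) (steps (b :: r))) =
      (if b = a then 1 else 0) * d ^ l + ∑ i, Sm l (fun r => cnt (a, c) (steps (i :: r))) := by
  simp only [Sm]
  have : ∀ (i : Fin d) (r : List (Fin d)), cnt (a, c) (steps (b :: i :: r)) =
      (if b = a ∧ i = c then 1 else 0) + cnt (a, c) (steps (i :: r)) := by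
    intro i r
    simp only [steps, cnt, List.count_cons]
    by_cases h : b = a ∧ i = c
    · simp [h, add_comm]
    · have : ¬ ((b, i) = (a, c)) := by simpa [Prod.ext_iff] using h
      simp [h, this]
  simp_rw [this, Sm_add, Sm_const, Finset.sum_add_distrib]
  congr 1
  rw [← Finset.sum_mul]
  congr 1
  by_cases h : b = a <;> simp [h]

theorem count_total {d : ℕ} (l : ℕ) (a c : Fin d) :
    d * ∑ b, Sm l (fun r => cnt (a, c) (steps (b :: r))) = l * d ^ l := by
  induction l with
  | zero => simp [Sm, steps, cnt]
  | succ l ih =>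
    simp_rw [count_rec, Finset.sum_add_distrib]
    rw [Finset.sum_const, mul_add, ← Finset.sum_mul]
    simp only [Finset.sum_ite_eq', Finset.mem_univ, if_true, Finset.card_univ, Fintype.card_fin,
      smul_eq_mul, ih]
    ring

theorem count_diag {d : ℕ} (l : ℕ) (b : Fin d) :
    d * ∑ i, Sm l (fun r => cnt (b, i) (steps (i :: r))) = l * d ^ l := by
  cases l with
  | zero => simp [Sm, steps, cnt]
  | succ l =>
    simp_rw [count_rec, Finset.sum_add_distrib]
    rw [mul_add, ← Finset.sum_mul, Finset.mul_sum]
    simp_rw [count_total]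
    simp only [Finset.sum_ite_eq', Finset.mem_univ, if_true, Finset.card_univ, Fintype.card_fin,
      smul_eq_mul, Finset.sum_const]
    ring

theorem reps_total {d : ℕ} (l : ℕ) (b : Fin d) :
    2 * d ^ 2 * Sm l (fun r => reps (steps (b :: r))) ≤ l ^ 2 * d ^ l := by
  induction l generalizing b with
  | zero => simp [Sm, steps, reps]
  | succ l ih =>
    have h1 : Sm (l + 1) (fun r => reps (steps (b :: r))) =
        ∑ i, Sm l (fun r => cnt (b, i) (steps (i :: r))) +
          ∑ i : Fin d, Sm l (fun r => reps (steps (i :: r))) := by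
      simp only [Sm, steps, reps]
      simp_rw [Sm_add, Finset.sum_add_distrib]
    have h2 := count_diag l b
    have h3 : 2 * d ^ 2 * ∑ i : Fin d, Sm l (fun r => reps (steps (i :: r))) ≤
        d * (l ^ 2 * d ^ l) := by
      rw [Finset.mul_sum]
      calc _ ≤ ∑ _i : Fin d, l ^ 2 * d ^ l := Finset.sum_le_sum fun i _ => ih i
        _ = _ := by simp
    rw [h1, mul_add]
    have h4 : 2 * d ^ 2 * ∑ i, Sm l (fun r => cnt (b, i) (steps (i :: r))) =
        2 * d * (l * d ^ l) := by
      rw [← h2]; ring
    rw [h4]
    calc 2 * d * (l * d ^ l) + _ ≤ 2 * d * (l * d ^ l) + d * (l ^ 2 * d ^ l) := by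
          exact Nat.add_le_add_left h3 _
      _ ≤ (l + 1) ^ 2 * d ^ (l + 1) := by
          have : (l + 1) ^ 2 * d ^ (l + 1) = 2 * d * (l * d ^ l) + d * (l ^ 2 * d ^ l) + d ^ (l+1) := by
            ring
          omega

/-- Few repeats with frequency at least `5/6`. -/
theorem few_reps {d l ρ : ℕ} (hd : 0 < d) (h : 3 * l ^ 2 ≤ d ^ 2 * (ρ + 1)) (b : Fin d) :
    5 * d ^ l ≤ 6 * Sm l (fun r => if reps (steps (b :: r)) ≤ ρ then 1 else 0) := by
  set g := Sm l (fun r => if reps (steps (b :: r)) ≤ ρ then 1 else 0) with hg
  have h1 : g + Sm l (fun r => if ρ < reps (steps (b :: r)) then 1 else 0) = d ^ l := by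
    rw [hg, ← Sm_add, ← one_mul (d ^ l), ← Sm_const l 1]
    congr 1
    funext r
    by_cases h : reps (steps (b :: r)) ≤ ρ
    · simp [h]
    · simp [h, not_le.1 h]
  have h2 : (ρ + 1) * Sm l (fun r => if ρ < reps (steps (b :: r)) then 1 else 0) ≤
      Sm l (fun r => reps (steps (b :: r))) := by
    rw [← Sm_mul]
    refine Sm_mono l fun r => ?_
    by_cases h : ρ < reps (steps (b :: r))
    · simp [h]
    · simp [h]
  set B := Sm l (fun r => if ρ < reps (steps (b :: r)) then 1 else 0) with hB
  have h3 := reps_total l b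
  have h4 : 2 * d ^ 2 * ((ρ + 1) * B) ≤ l ^ 2 * d ^ l :=
    (Nat.mul_le_mul_left _ h2).trans h3
  have h5 : d ^ 2 * (ρ + 1) * (6 * B) ≤ d ^ 2 * (ρ + 1) * d ^ l := by
    calc d ^ 2 * (ρ + 1) * (6 * B) = 3 * (2 * d ^ 2 * ((ρ + 1) * B)) := by ring
      _ ≤ 3 * (l ^ 2 * d ^ l) := Nat.mul_le_mul_left _ h4
      _ = 3 * l ^ 2 * d ^ l := by ring
      _ ≤ _ := Nat.mul_le_mul_right _ h
  have h6 : 6 * B ≤ d ^ l := Nat.le_of_mul_le_mul_left h5 (by positivity)
  omega

end Pool.Agent.H305rw
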