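import Pool.Agent.H305rw.Stream

/-!
Claims made by a piece of the output, and how rarely they are all valid.
-/

namespace Pool.Agent.H305rw

/-- Few assignments satisfy many prescribed values. -/
theorem card_prescribed {K : Type} [Fintype K] [DecidableEq K] (F : Finset (K × Bool)) :
    (Finset.univ.filter fun z : K → Bool => ∀ f ∈ F, z f.1 = f.2).card * 2 ^ F.card ≤
      2 ^ Fintype.card K := by
  rcases (Finset.univ.filter fun z : K → Bool => ∀ f ∈ F, z f.1 = f.2).eq_empty_or_nonempty
    with h | ⟨z₀, hz₀⟩
  · rw [h]; simp
  · have hz : ∀ f ∈ F, z₀ f.1 = f.2 := (Finset.mem_filter.1 hz₀).2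
    set D := F.image Prod.fst with hD
    have hcard : D.card = F.card := by
      refine Finset.card_image_of_injOn ?_
      intro f hf g hg hfg
      refine Prod.ext hfg ?_
      rw [← hz f hf, ← hz g hg]
      exact congrArg z₀ hfg
    have hsub : (Finset.univ.filter fun z : K → Bool => ∀ f ∈ F, z f.1 = f.2) ⊆
        Fintype.piFinset (fun k => if k ∈ D then {z₀ k} else (Finset.univ : Finset Bool)) := by
      intro z hz'
      rw [Fintype.mem_piFinset]
      intro k
      split_ifs with hk
      · obtain ⟨f, hf, rfl⟩ := Finset.mem_image.1 hk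
        rw [Finset.mem_singleton, hz f hf]
        exact (Finset.mem_filter.1 hz').2 f hf
      · exact Finset.mem_univ _
    have h1 := Finset.card_le_card hsub
    rw [Fintype.card_piFinset] at h1
    have h2 : ∏ k : K, (if k ∈ D then {z₀ k} else (Finset.univ : Finset Bool)).card =
        2 ^ (Fintype.card K - D.card) := by
      have : ∀ k : K, (if k ∈ D then {z₀ k} else (Finset.univ : Finset Bool)).card =
          if k ∈ D then 1 else 2 := by
        intro k; split_ifs <;> simp
      simp_rw [this]
      rw [Finset.prod_ite, Finset.prod_const_one, one_mul, Finset.prod_const]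
      congr 1
      rw [← Finset.card_univ, ← Finset.card_sdiff_of_subset (Finset.subset_univ D)]
      congr 1
      ext k
      simp
    rw [h2] at h1
    have h3 : F.card ≤ Fintype.card K := by
      rw [← hcard]; exact Finset.card_le_univ D
    calc _ ≤ 2 ^ (Fintype.card K - D.card) * 2 ^ F.card := Nat.mul_le_mul_right _ h1
      _ = 2 ^ Fintype.card K := by rw [← pow_add, hcard, Nat.sub_add_cancel h3]

theorem card_event {Y K : Type} [Fintype Y] [Fintype K] [DecidableEq K]
    (F : Y → Finset (K × Bool)) (r : ℕ) :
    (Finset.univ.filter fun x : Y × (K → Bool) =>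
      r ≤ (F x.1).card ∧ ∀ f ∈ F x.1, x.2 f.1 = f.2).card * 2 ^ r ≤
      Fintype.card Y * 2 ^ Fintype.card K := by
  rw [Finset.card_filter, Fintype.sum_prod_type, Finset.sum_mul]
  calc _ ≤ ∑ _y : Y, 2 ^ Fintype.card K := by
        refine Finset.sum_le_sum fun y _ => ?_
        by_cases h : r ≤ (F y).card
        · simp only [h, true_and]
          rw [← Finset.card_filter]
          exact (Nat.mul_le_mul_left _ (Nat.pow_le_pow_right (by norm_num) h)).trans
            (card_prescribed (F y))
        · simp [h]
    _ = _ := by simp

section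
variable {d : ℕ}

/-- The pair `e` as a key and the bit claimed for it. -/
def toKey (e : Core d × Core d) : Key d × Bool := ((e.1.2.1, e.1.2.2, e.2.2.1), e.2.2.2)

/-- The claims of a list of core vertices about the hidden bits of side `s`. -/
def claims (s : Bool) (o : List (Core d)) : Finset (Key d × Bool) :=
  (((steps o).filter fun e => e.1.1 = s).map toKey).toFinset

theorem claims_valid {x : Bits d} {o : List (Core d)} (s : Bool)
    (h : ∀ e ∈ steps o, e.2 = next x e.1 e.2.2.1) :
    ∀ f ∈ claims s o, sel x s f.1 = f.2 := by
  intro f hf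
  simp only [claims, List.mem_toFinset, List.mem_map, List.mem_filter, decide_eq_true_eq] at hf
  obtain ⟨e, ⟨he, hs⟩, rfl⟩ := hf
  have h1 := h e he
  rw [Prod.ext_iff, Prod.ext_iff] at h1
  simp only [next] at h1
  rw [← hs]
  exact h1.2.2.symm

/-- Half of the steps of an alternating list have their tail on side `s`. -/
theorem filter_length (x : Bits d) (s : Bool) (o : List (Core d))
    (h : ∀ e ∈ steps o, e.2 = next x e.1 e.2.2.1) :
    o.length ≤ 2 * ((steps o).filter fun e => e.1.1 = s).length + 2 ∧
    ∀ c L, o = c :: L → c.1 = s →
      o.length ≤ 2 * ((steps o).filter fun e => e.1.1 = s).length + 1 := by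
  induction o with
  | nil => simp
  | cons c L ih =>
    cases L with
    | nil =>
      constructor
      · simp [steps]
      · intro c' L' _ _
        simp [steps]
    | cons c' L =>
      have h' : ∀ e ∈ steps (c' :: L), e.2 = next x e.1 e.2.2.1 :=
        fun e he => h e (by simp [steps, he])
      obtain ⟨ih1, ih2⟩ := ih h'
      have hc : c' = next x c c'.2.1 := h (c, c') (by simp [steps])
      have hside : c'.1 = !c.1 := by rw [hc]; rfl
      by_cases hs : c.1 = s
      · have e1 : ((steps (c :: c' :: L)).filter fun e => e.1.1 = s).length =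
            ((steps (c' :: L)).filter fun e => e.1.1 = s).length + 1 := by
          simp [steps, hs]
        refine ⟨?_, fun c'' L'' _ _ => ?_⟩ <;>
        · rw [e1, List.length_cons]; omega
      · have e1 : ((steps (c :: c' :: L)).filter fun e => e.1.1 = s).length =
            ((steps (c' :: L)).filter fun e => e.1.1 = s).length := by
          simp [steps, hs]
        have hs' : c'.1 = s := by
          rw [hside]; revert hs; cases c.1 <;> cases s <;> simp
        have h3 := ih2 c' L rfl hs'
        refine ⟨?_, fun c'' L'' hcc hc' => ?_⟩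
        · rw [e1, List.length_cons]; omega
        · exact absurd (by rw [(List.cons.inj hcc).1]; exact hc') hs

/-- A long piece of a path with few repeats makes many claims about each side. -/
theorem claims_card {x : Bits d} {c : Core d} {is : List (Fin d)} {o : List (Core d)} {r ρ : ℕ}
    (hρ : reps (steps (c.2.1 :: is)) ≤ ρ) {o₁ o₂ : List (Core d)}
    (ho : o₁ ++ o ++ o₂ = cpath x c is) (hlen : 2 * (r + ρ) + 2 ≤ o.length) (s : Bool) :
    r ≤ (claims s o).card ∧ ∀ f ∈ claims s o, sel x s f.1 = f.2 := by
  have hsub : (steps o).Sublist (steps (cpath x c is)) := by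
    rw [← ho]
    exact (steps_append_right o₁ o).trans (steps_append_left _ _)
  have hval : ∀ e ∈ steps o, e.2 = next x e.1 e.2.2.1 :=
    fun e he => cpath_steps x c is e (hsub.subset he)
  refine ⟨?_, claims_valid s hval⟩
  have h1 := (filter_length x s o hval).1
  set Fl := (steps o).filter fun e => e.1.1 = s with hFl
  have h2 := length_le_card_add_reps (Fl.map toKey)
  have h3 : reps (Fl.map toKey) ≤ ρ := by
    refine le_trans (reps_map (fun f : Key d × Bool => (f.1.1, f.1.2.2)) _) ?_
    rw [List.map_map]
    have h4 : (Fl.map ((fun f : Key d × Bool => (f.1.1, f.1.2.2)) ∘ toKey)).Sublist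
        (steps (c.2.1 :: is)) := by
      rw [← cpath_blocks x c is, steps_map]
      exact ((List.filter_sublist).trans hsub).map _
    exact (reps_sublist h4).trans hρ
  rw [List.length_map] at h2
  have h5 : (claims s o).card = (Fl.map toKey).toFinset.card := rfl
  omega

end

end Pool.Agent.H305rw
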