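import Mathlib

/-!
Streaming simulation of random walks: the model.

Vertices are `Fin n`.  A machine has a set `σ` of memory contents; at each time step it reads one
edge of the stream, changes its memory and appends vertices to its output.  It may use the time for
free.  A randomized algorithm is a family of machines indexed by the start vertex and by a point of a
probability space, so all its random bits are available at all times for free.
-/

namespace Pool.Agent.H305rw

open MeasureTheory

/-- A directed graph on `Fin n` in which every vertex has at least one out-neighbour. -/
structure OutGraph (n : ℕ) where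
  out : Fin n → Finset (Fin n)
  out_nonempty : ∀ v, (out v).Nonempty

/-- `L` is an ordering of the edges of `G`: it lists every edge exactly once. -/
def IsStream {n : ℕ} (G : OutGraph n) (L : List (Fin n × Fin n)) : Prop :=
  L.Nodup ∧ ∀ e : Fin n × Fin n, e ∈ L ↔ e.2 ∈ G.out e.1

/-- The law of the random walk `v = v₀, v₁, …, v_l` of length `l`: each vertex is a uniformly
random out-neighbour of the previous one. -/
noncomputable def walkLaw {n : ℕ} (G : OutGraph n) : ℕ → Fin n → PMF (List (Fin n))
  | 0, v => PMF.pure [v]
  | l + 1, v => (PMF.uniformOfFinset (G.out v) (G.out_nonempty v)).bind
      fun u => (walkLaw G l u).map fun w => v :: w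

/-- A machine with set `σ` of memory contents: the initial memory, the step (from the time, the
memory and the edge read, to the new memory and the vertices written), and the vertices written
after the last pass. -/
structure Machine (n : ℕ) (σ : Type) where
  init : σ
  step : ℕ → σ → Fin n × Fin n → σ × List (Fin n)
  final : σ → List (Fin n)

/-- Reading the list `L` from time `t` and memory `s`: the final memory and what is written. -/
def Machine.run {n : ℕ} {σ : Type} (M : Machine n σ) :
    ℕ → σ → List (Fin n × Fin n) → σ × List (Fin n)
  | _, s, [] => (s, [])
  | t, s, e :: L =>
    ((M.run (t + 1) (M.step t s e).1 L).1, (M.step t s e).2 ++ (M.run (t + 1) (M.step t s e).1 L).2)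

/-- The output of the machine after `p` passes over the stream `L`. -/
def Machine.output {n : ℕ} {σ : Type} (M : Machine n σ) (p : ℕ) (L : List (Fin n × Fin n)) :
    List (Fin n) :=
  (M.run 0 M.init (List.replicate p L).flatten).2 ++
    M.final (M.run 0 M.init (List.replicate p L).flatten).1

/-- The randomized algorithm `alg` with `p` passes simulates the random walk of length `l`: for every
graph, every order of its edges and every start vertex, the total variation distance between the
law of its output and the law of the walk is at most `1/3`. -/
def Simulates {n : ℕ} {Ω σ : Type} [MeasurableSpace Ω] (μ : Measure Ω)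
    (alg : Fin n → Ω → Machine n σ) (p l : ℕ) : Prop :=
  ∀ (G : OutGraph n) (L : List (Fin n × Fin n)) (v₀ : Fin n), IsStream G L →
    (∀ w : List (Fin n), MeasurableSet {ω | (alg v₀ ω).output p L = w}) ∧
    ∀ E : Set (List (Fin n)),
      |μ.real {ω | (alg v₀ ω).output p L ∈ E} - ((walkLaw G l v₀).toOuterMeasure E).toReal| ≤ 1 / 3

end Pool.Agent.H305rw
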