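import Pool.Agent.H305rw.Defs
import Pool.Agent.H305rw.Comb

/-!
The hard graphs, their walks and their streams.
-/

namespace Pool.Agent.H305rw

open scoped ENNReal

/-- Core vertices: side, block, bit. -/
abbrev Core (d : ℕ) : Type := Bool × Fin d × Bool

/-- Names of the hidden bits of one side: block and bit of the tail, block of the head. -/
abbrev Key (d : ℕ) : Type := Fin d × Bool × Fin d

/-- The hidden bits of the two sides. -/
abbrev Bits (d : ℕ) : Type := (Key d → Bool) × (Key d → Bool)

def sel {d : ℕ} (x : Bits d) : Bool → Key d → Bool
  | false => x.1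
  | true => x.2

def next {d : ℕ} (x : Bits d) (c : Core d) (i : Fin d) : Core d :=
  (!c.1, i, sel x c.1 (c.2.1, c.2.2, i))

def cpath {d : ℕ} (x : Bits d) : Core d → List (Fin d) → List (Core d)
  | c, [] => [c]
  | c, i :: is => c :: cpath x (next x c i) is

theorem next_injective {d : ℕ} (x : Bits d) (c : Core d) : Function.Injective (next x c) := by
  intro i j h
  simp only [next, Prod.mk.injEq] at h
  exact h.2.1

theorem cpath_length {d : ℕ} (x : Bits d) (c : Core d) (is : List (Fin d)) :
    (cpath x c is).length = is.length + 1 := by
  induction is generalizing c with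
  | nil => simp [cpath]
  | cons i is ih => simp [cpath, ih]

theorem cpath_blocks {d : ℕ} (x : Bits d) (c : Core d) (is : List (Fin d)) :
    (cpath x c is).map (fun c => c.2.1) = c.2.1 :: is := by
  induction is generalizing c with
  | nil => simp [cpath]
  | cons i is ih => simp [cpath, ih, next]

theorem cpath_head {d : ℕ} (x : Bits d) (c : Core d) (is : List (Fin d)) :
    ∃ L, cpath x c is = c :: L := by
  cases is with
  | nil => exact ⟨[], rfl⟩
  | cons i is => exact ⟨_, rfl⟩

/-- Every consecutive pair of a path is a pair `(c, next x c i)`. -/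
theorem cpath_steps {d : ℕ} (x : Bits d) (c : Core d) (is : List (Fin d)) :
    ∀ e ∈ steps (cpath x c is), e.2 = next x e.1 e.2.2.1 := by
  induction is generalizing c with
  | nil => simp [cpath, steps]
  | cons i is ih =>
    obtain ⟨L, hL⟩ := cpath_head x (next x c i) is
    intro e he
    simp only [cpath, hL, steps, List.mem_cons] at he
    rcases he with rfl | he
    · simp [next]
    · exact ih (next x c i) e (by rw [hL]; exact he)

section
variable {n d : ℕ} [NeZero d] (enc : Core d ↪ Fin n)

/-- The decoding of vertices. -/
noncomputable def dec : Fin n → Core d := Function.invFun enc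

theorem dec_enc (c : Core d) : dec enc (enc c) = c :=
  Function.leftInverse_invFun enc.injective c

open Classical in
/-- The hard graph with hidden bits `x`. -/
noncomputable def hard (x : Bits d) : OutGraph n where
  out v := if v ∈ Set.range enc then Finset.univ.image (fun i => enc (next x (dec enc v) i))
    else {enc (false, 0, false)}
  out_nonempty v := by
    split_ifs
    · exact (Finset.univ_nonempty (α := Fin d)).image _
    · simp

theorem hard_out (x : Bits d) (c : Core d) :
    (hard enc x).out (enc c) = Finset.univ.map ⟨fun i => enc (next x c i),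
      enc.injective.comp (next_injective x c)⟩ := by
  classical
  simp only [hard, Set.mem_range_self, if_true, dec_enc]
  ext v
  simp

theorem hard_out_not (x : Bits d) (v : Fin n) (h : v ∉ Set.range enc) :
    (hard enc x).out v = {enc (false, 0, false)} := by
  classical
  simp only [hard]
  rw [if_neg h]

open Classical in
theorem walk_prob (x : Bits d) (l : ℕ) (c : Core d) (E : Set (List (Fin n))) :
    (walkLaw (hard enc x) l (enc c)).toOuterMeasure E =
      (Sm l (fun is => if (cpath x c is).map enc ∈ E then 1 else 0) : ℕ) / (d : ℝ≥0∞) ^ l := by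
  induction l generalizing c E with
  | zero =>
    simp only [walkLaw, PMF.toOuterMeasure_pure_apply, Sm, cpath, List.map_cons, List.map_nil,
      pow_zero, div_one]
    split_ifs <;> simp
  | succ l ih =>
    have hd : (d : ℝ≥0∞) ≠ 0 := by
      simpa using NeZero.ne d
    have hd' : (d : ℝ≥0∞) ≠ ⊤ := ENNReal.natCast_ne_top d
    simp only [walkLaw, PMF.toOuterMeasure_bind_apply, PMF.uniformOfFinset_apply,
      PMF.toOuterMeasure_map_apply]
    rw [tsum_eq_sum (s := (hard enc x).out (enc c))]
    · simp only [hard_out, Finset.sum_map, Finset.card_map, Finset.card_univ, Fintype.card_fin,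
        Finset.mem_map, Finset.mem_univ, true_and, Function.Embedding.coeFn_mk]
      simp_rw [ih]
      simp only [Sm, cpath, List.map_cons, Set.mem_preimage, Nat.cast_sum]
      rw [ENNReal.div_eq_inv_mul, Finset.mul_sum]
      refine Finset.sum_congr rfl fun i _ => ?_
      rw [if_pos ⟨i, rfl⟩, pow_succ, ENNReal.div_eq_inv_mul, ← mul_assoc,
        ENNReal.mul_inv (Or.inl (pow_ne_zero _ hd)) (Or.inr hd), mul_comm (d : ℝ≥0∞)⁻¹]
    · intro v hv
      rw [if_neg hv, zero_mul]

end

end Pool.Agent.H305rw
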