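import Pool.Agent.H305rw.Count

/-!
The trade-off between memory and passes.
-/

namespace Pool.Agent.H305rw

open MeasureTheory

section
variable {n d : ℕ} [NeZero d] (enc : Core d ↪ Fin n)

omit [NeZero d] in
theorem ev_left (F : (Key d → Bool) → Finset (Key d × Bool)) (r : ℕ) :
    (Finset.univ.filter fun x : Bits d =>
      r ≤ (F x.1).card ∧ ∀ f ∈ F x.1, x.2 f.1 = f.2).card * 2 ^ r ≤ Fintype.card (Bits d) := by
  have h := card_event F r
  have e : Fintype.card (Bits d) = Fintype.card (Key d → Bool) * 2 ^ Fintype.card (Key d) := by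
    rw [Fintype.card_prod]; congr 1; simp
  rw [e]
  exact h

omit [NeZero d] in
theorem ev_right (F : (Key d → Bool) → Finset (Key d × Bool)) (r : ℕ) :
    (Finset.univ.filter fun x : Bits d =>
      r ≤ (F x.2).card ∧ ∀ f ∈ F x.2, x.1 f.1 = f.2).card * 2 ^ r ≤ Fintype.card (Bits d) := by
  have h := ev_left F r
  refine le_trans (Nat.mul_le_mul_right _ ?_) h
  refine Finset.card_le_card_of_injOn Prod.swap ?_ (Prod.swap_injective.injOn)
  intro x hx
  simpa using hx

/-- Good outputs: a walk of the hard graph with few repeated pairs of blocks. -/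
def Good (x : Bits d) (c₀ : Core d) (l ρ : ℕ) : Set (List (Fin n)) :=
  {w | ∃ is : List (Fin d), is.length = l ∧ reps (steps (c₀.2.1 :: is)) ≤ ρ ∧
    w = (cpath x c₀ is).map enc}

theorem exists_event {σ : Type} (M : Machine n σ) (c₀ : Core d) {p l r ρ : ℕ}
    (hl : (2 * p + 1) * (2 * (r + ρ) + 1) ≤ l) (x : Bits d)
    (hx : M.output p (stream enc x) ∈ Good enc x c₀ l ρ) :
    (∃ k < p, ∃ s : σ,
      (let F := claims true (((M.run (k * (Fintype.card (Key d) +
          (Fintype.card (Key d) + (rest enc).length))) s (half enc false x.1)).2).map (dec enc))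
       r ≤ F.card ∧ ∀ f ∈ F, x.2 f.1 = f.2) ∨
      (let F := claims false (((M.run (k * (Fintype.card (Key d) +
          (Fintype.card (Key d) + (rest enc).length)) + Fintype.card (Key d)) s
            (half enc true x.2 ++ rest enc)).2).map (dec enc))
       r ≤ F.card ∧ ∀ f ∈ F, x.1 f.1 = f.2)) ∨
    ∃ s : σ, (let F := claims true ((M.final s).map (dec enc))
       r ≤ F.card ∧ ∀ f ∈ F, x.2 f.1 = f.2) := by
  obtain ⟨is, his, hρ, hout⟩ := hx
  obtain ⟨ps, h1, h2, h3⟩ := windows M (half enc false x.1) (half enc true x.2 ++ rest enc) p 0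
    M.init
  set ps' := ps ++ [M.final (M.run 0 M.init (List.replicate p (stream enc x)).flatten).1] with hps'
  have hflat : ps'.flatten = (cpath x c₀ is).map enc := by
    rw [← hout, hps', List.flatten_append, h1]
    simp [Machine.output, stream]
  have hlen : ∃ o ∈ ps', 2 * (r + ρ) + 2 ≤ o.length := by
    by_contra hcon
    push Not at hcon
    have h4 : (ps'.map List.length).sum ≤ (ps'.map List.length).length • (2 * (r + ρ) + 1) := by
      refine List.sum_le_card_nsmul _ _ ?_
      intro a ha
      obtain ⟨o, ho, rfl⟩ := List.mem_map.1 ha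
      have := hcon o ho
      omega
    rw [← List.length_flatten, hflat, List.length_map, cpath_length, his, List.length_map,
      hps', List.length_append, h2, smul_eq_mul] at h4
    simp only [List.length_cons, List.length_nil, zero_add] at h4
    omega
  obtain ⟨o, ho, hol⟩ := hlen
  obtain ⟨q₁, q₂, hq⟩ := List.append_of_mem ho
  have hpath : (q₁.flatten).map (dec enc) ++ o.map (dec enc) ++ (q₂.flatten).map (dec enc) =
      cpath x c₀ is := by
    have e1 : ((ps'.flatten).map (dec enc)) = cpath x c₀ is := by
      rw [hflat, List.map_map]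
      conv_rhs => rw [← List.map_id (cpath x c₀ is)]
      refine List.map_congr_left fun c _ => ?_
      simp [dec_enc]
    rw [← e1, hq]
    simp
  have key : ∀ s : Bool, r ≤ (claims s (o.map (dec enc))).card ∧
      ∀ f ∈ claims s (o.map (dec enc)), sel x s f.1 = f.2 := fun s =>
    claims_card hρ hpath (by simpa using hol) s
  rcases List.mem_append.1 ho with ho | ho
  · obtain ⟨k, hk, s', h | h⟩ := h3 o ho
    · left
      refine ⟨k, hk, s', Or.inl ?_⟩
      rw [List.length_append, half_length, half_length, zero_add] at h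
      have := key true
      rw [h] at this
      exact this
    · left
      refine ⟨k, hk, s', Or.inr ?_⟩
      rw [List.length_append, half_length, half_length, zero_add] at h
      have := key false
      rw [h] at this
      exact this
  · right
    rw [List.mem_singleton] at ho
    have := key true
    rw [ho] at this
    exact ⟨_, this⟩

open Classical in
theorem count_good {σ : Type} [Fintype σ] (M : Machine n σ) (c₀ : Core d) {p l r ρ : ℕ}
    (hl : (2 * p + 1) * (2 * (r + ρ) + 1) ≤ l) :
    (Finset.univ.filter fun x : Bits d =>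
      M.output p (stream enc x) ∈ Good enc x c₀ l ρ).card * 2 ^ r ≤
      (2 * p + 1) * Fintype.card σ * Fintype.card (Bits d) := by
  set FA : Fin p × σ → (Key d → Bool) → Finset (Key d × Bool) := fun q y =>
    claims true (((M.run (q.1 * (Fintype.card (Key d) +
          (Fintype.card (Key d) + (rest enc).length))) q.2 (half enc false y)).2).map (dec enc))
    with hFA
  set FB : Fin p × σ → (Key d → Bool) → Finset (Key d × Bool) := fun q y =>
    claims false (((M.run (q.1 * (Fintype.card (Key d) +
          (Fintype.card (Key d) + (rest enc).length)) + Fintype.card (Key d)) q.2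
            (half enc true y ++ rest enc)).2).map (dec enc)) with hFB
  set FC : σ → (Key d → Bool) → Finset (Key d × Bool) := fun s _ =>
    claims true ((M.final s).map (dec enc)) with hFC
  set EA : Fin p × σ → Finset (Bits d) := fun q => Finset.univ.filter fun x : Bits d =>
      r ≤ (FA q x.1).card ∧ ∀ f ∈ FA q x.1, x.2 f.1 = f.2 with hEA
  set EB : Fin p × σ → Finset (Bits d) := fun q => Finset.univ.filter fun x : Bits d =>
      r ≤ (FB q x.2).card ∧ ∀ f ∈ FB q x.2, x.1 f.1 = f.2 with hEB
  set EC : σ → Finset (Bits d) := fun q => Finset.univ.filter fun x : Bits d =>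
      r ≤ (FC q x.1).card ∧ ∀ f ∈ FC q x.1, x.2 f.1 = f.2 with hEC
  have hsub : (Finset.univ.filter fun x : Bits d =>
      M.output p (stream enc x) ∈ Good enc x c₀ l ρ) ⊆
      Finset.univ.biUnion EA ∪ (Finset.univ.biUnion EB ∪ Finset.univ.biUnion EC) := by
    intro x hx
    have hx' := (Finset.mem_filter.1 hx).2
    simp only [Finset.mem_union, Finset.mem_biUnion, Finset.mem_univ, true_and]
    rcases exists_event enc M c₀ hl x hx' with ⟨k, hk, s, h | h⟩ | ⟨s, h⟩
    · exact Or.inl ⟨(⟨k, hk⟩, s), Finset.mem_filter.2 ⟨Finset.mem_univ _, h⟩⟩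
    · exact Or.inr (Or.inl ⟨(⟨k, hk⟩, s), Finset.mem_filter.2 ⟨Finset.mem_univ _, h⟩⟩)
    · exact Or.inr (Or.inr ⟨s, Finset.mem_filter.2 ⟨Finset.mem_univ _, h⟩⟩)
  have h1 := Finset.card_le_card hsub
  have hA : (Finset.univ.biUnion EA).card * 2 ^ r ≤
      (p * Fintype.card σ) * Fintype.card (Bits d) := by
    calc _ ≤ (∑ q, (EA q).card) * 2 ^ r := Nat.mul_le_mul_right _ Finset.card_biUnion_le
      _ = ∑ q, (EA q).card * 2 ^ r := Finset.sum_mul _ _ _
      _ ≤ ∑ _q : Fin p × σ, Fintype.card (Bits d) :=
        Finset.sum_le_sum fun q _ => ev_left (FA q) r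
      _ = _ := by simp
  have hB : (Finset.univ.biUnion EB).card * 2 ^ r ≤
      (p * Fintype.card σ) * Fintype.card (Bits d) := by
    calc _ ≤ (∑ q, (EB q).card) * 2 ^ r := Nat.mul_le_mul_right _ Finset.card_biUnion_le
      _ = ∑ q, (EB q).card * 2 ^ r := Finset.sum_mul _ _ _
      _ ≤ ∑ _q : Fin p × σ, Fintype.card (Bits d) :=
        Finset.sum_le_sum fun q _ => ev_right (FB q) r
      _ = _ := by simp
  have hC : (Finset.univ.biUnion EC).card * 2 ^ r ≤
      Fintype.card σ * Fintype.card (Bits d) := by
    calc _ ≤ (∑ q, (EC q).card) * 2 ^ r := Nat.mul_le_mul_right _ Finset.card_biUnion_le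
      _ = ∑ q, (EC q).card * 2 ^ r := Finset.sum_mul _ _ _
      _ ≤ ∑ _q : σ, Fintype.card (Bits d) :=
        Finset.sum_le_sum fun q _ => ev_left (FC q) r
      _ = _ := by simp
  have h2 : (Finset.univ.biUnion EA ∪ (Finset.univ.biUnion EB ∪ Finset.univ.biUnion EC)).card ≤
      (Finset.univ.biUnion EA).card + ((Finset.univ.biUnion EB).card +
        (Finset.univ.biUnion EC).card) :=
    (Finset.card_union_le _ _).trans (Nat.add_le_add_left (Finset.card_union_le _ _) _)
  calc _ ≤ ((Finset.univ.biUnion EA).card + ((Finset.univ.biUnion EB).card +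
        (Finset.univ.biUnion EC).card)) * 2 ^ r := Nat.mul_le_mul_right _ (h1.trans h2)
    _ = (Finset.univ.biUnion EA).card * 2 ^ r + ((Finset.univ.biUnion EB).card * 2 ^ r +
        (Finset.univ.biUnion EC).card * 2 ^ r) := by ring
    _ ≤ (p * Fintype.card σ) * Fintype.card (Bits d) + ((p * Fintype.card σ) *
        Fintype.card (Bits d) + Fintype.card σ * Fintype.card (Bits d)) :=
        Nat.add_le_add hA (Nat.add_le_add hB hC)
    _ = _ := by ring

end

end Pool.Agent.H305rw
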