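import Pool.Agent.H305rw.Graph

/-!
Streams of the hard graphs, and how a run splits into half passes.
-/

namespace Pool.Agent.H305rw

section
variable {n d : ℕ} [NeZero d] (enc : Core d ↪ Fin n)

/-- The edges with tails on side `s`, given the hidden bits of that side. -/
noncomputable def half (s : Bool) (y : Key d → Bool) : List (Fin n × Fin n) :=
  ((Finset.univ : Finset (Key d)).toList.map fun k =>
    (enc (s, k.1, k.2.1), enc (!s, k.2.2, y k)))

open Classical in
/-- The edges out of the vertices outside the core. -/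
noncomputable def rest : List (Fin n × Fin n) :=
  ((Finset.univ.filter fun v : Fin n => v ∉ Set.range enc).toList.map fun v =>
    (v, enc (false, 0, false)))

omit [NeZero d] in
theorem half_length (s : Bool) (y : Key d → Bool) :
    (half enc s y).length = Fintype.card (Key d) := by
  simp [half]

omit [NeZero d] in
theorem mem_half {s : Bool} {y : Key d → Bool} {e : Fin n × Fin n} :
    e ∈ half enc s y ↔ ∃ k : Key d, e = (enc (s, k.1, k.2.1), enc (!s, k.2.2, y k)) := by
  simp only [half, List.mem_map, Finset.mem_toList, Finset.mem_univ, true_and]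
  constructor <;> rintro ⟨k, hk⟩ <;> exact ⟨k, hk.symm⟩

omit [NeZero d] in
theorem half_nodup (s : Bool) (y : Key d → Bool) : (half enc s y).Nodup := by
  refine (Finset.nodup_toList _).map ?_
  rintro ⟨a, b, c⟩ ⟨a', b', c'⟩ h
  simp only [Prod.mk.injEq, EmbeddingLike.apply_eq_iff_eq] at h
  obtain ⟨⟨-, rfl, rfl⟩, -, rfl, -⟩ := h
  rfl

theorem mem_rest {e : Fin n × Fin n} :
    e ∈ rest enc ↔ e.1 ∉ Set.range enc ∧ e.2 = enc (false, 0, false) := by
  classical
  simp only [rest, List.mem_map, Finset.mem_toList, Finset.mem_filter, Finset.mem_univ, true_and]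
  constructor
  · rintro ⟨v, hv, rfl⟩
    exact ⟨hv, rfl⟩
  · rintro ⟨h1, h2⟩
    exact ⟨e.1, h1, by rw [← h2]⟩

theorem rest_nodup : (rest enc).Nodup := by
  classical
  refine (Finset.nodup_toList _).map ?_
  intro v w h
  exact (Prod.mk.inj h).1

/-- The stream of the hard graph. -/
noncomputable def stream (x : Bits d) : List (Fin n × Fin n) :=
  half enc false x.1 ++ (half enc true x.2 ++ rest enc)

theorem isStream (x : Bits d) : IsStream (hard enc x) (stream enc x) := by
  constructor
  · rw [stream, List.nodup_append', List.nodup_append']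
    refine ⟨half_nodup enc _ _, ⟨half_nodup enc _ _, rest_nodup enc, ?_⟩, ?_⟩
    · intro e he he'
      obtain ⟨k, rfl⟩ := (mem_half enc).1 he
      exact ((mem_rest enc).1 he').1 ⟨_, rfl⟩
    · intro e he he'
      obtain ⟨k, rfl⟩ := (mem_half enc).1 he
      rcases List.mem_append.1 he' with h | h
      · obtain ⟨k', h'⟩ := (mem_half enc).1 h
        simp at h'
      · exact ((mem_rest enc).1 h).1 ⟨_, rfl⟩
  · rintro ⟨u, v⟩
    simp only [stream, List.mem_append, mem_half, mem_rest]
    by_cases hu : u ∈ Set.range enc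
    · obtain ⟨⟨s, j, b⟩, rfl⟩ := hu
      simp only [hard_out, Finset.mem_map, Finset.mem_univ, true_and, Function.Embedding.coeFn_mk,
        next, Prod.mk.injEq, EmbeddingLike.apply_eq_iff_eq, Set.mem_range_self, not_true_eq_false,
        false_and, or_false]
      cases s
      · constructor
        · rintro (⟨k, ⟨-, rfl, rfl⟩, rfl⟩ | ⟨k, ⟨h, -⟩, -⟩)
          · exact ⟨k.2.2, rfl⟩
          · simp at h
        · rintro ⟨i, rfl⟩
          exact Or.inl ⟨(j, b, i), ⟨rfl, rfl, rfl⟩, rfl⟩
      · constructor
        · rintro (⟨k, ⟨h, -⟩, -⟩ | ⟨k, ⟨-, rfl, rfl⟩, rfl⟩)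
          · simp at h
          · exact ⟨k.2.2, rfl⟩
        · rintro ⟨i, rfl⟩
          exact Or.inr ⟨(j, b, i), ⟨rfl, rfl, rfl⟩, rfl⟩
    · rw [hard_out_not enc x u hu]
      simp only [Finset.mem_singleton]
      constructor
      · rintro (⟨k, h⟩ | ⟨k, h⟩ | h)
        · exact absurd ⟨_, (Prod.mk.inj h).1.symm⟩ hu
        · exact absurd ⟨_, (Prod.mk.inj h).1.symm⟩ hu
        · exact h.2
      · intro h
        exact Or.inr (Or.inr ⟨hu, h⟩)

end

theorem run_append {n : ℕ} {σ : Type} (M : Machine n σ) (L₁ L₂ : List (Fin n × Fin n)) (t : ℕ)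
    (s : σ) :
    M.run t s (L₁ ++ L₂) =
      ((M.run (t + L₁.length) (M.run t s L₁).1 L₂).1,
        (M.run t s L₁).2 ++ (M.run (t + L₁.length) (M.run t s L₁).1 L₂).2) := by
  induction L₁ generalizing t s with
  | nil => simp [Machine.run]
  | cons e L ih =>
    simp only [List.cons_append, Machine.run, ih, List.length_cons, List.append_assoc]
    rw [show t + 1 + L.length = t + (L.length + 1) by omega]

/-- The output of `p` passes over `A ++ B` splits into `2 p` pieces, one for each half pass. -/
theorem windows {n : ℕ} {σ : Type} (M : Machine n σ) (A B : List (Fin n × Fin n)) (p t : ℕ)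
    (s : σ) :
    ∃ ps : List (List (Fin n)),
      ps.flatten = (M.run t s (List.replicate p (A ++ B)).flatten).2 ∧ ps.length = 2 * p ∧
      ∀ o ∈ ps, ∃ k < p, ∃ s' : σ, o = (M.run (t + k * (A.length + B.length)) s' A).2 ∨
        o = (M.run (t + k * (A.length + B.length) + A.length) s' B).2 := by
  induction p generalizing t s with
  | zero => exact ⟨[], by simp [Machine.run], by simp, by simp⟩
  | succ p ih =>
    obtain ⟨ps, h1, h2, h3⟩ := ih (t + (A ++ B).length) (M.run t s (A ++ B)).1
    refine ⟨(M.run t s A).2 :: (M.run (t + A.length) (M.run t s A).1 B).2 :: ps, ?_, ?_, ?_⟩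
    · have e1 : (List.replicate (p + 1) (A ++ B)).flatten =
          (A ++ B) ++ (List.replicate p (A ++ B)).flatten := by simp [List.replicate_succ]
      rw [e1, run_append M (A ++ B), ← h1, run_append M A B]
      simp
    · simp only [List.length_cons, h2]; omega
    · intro o ho
      simp only [List.mem_cons] at ho
      rcases ho with rfl | rfl | ho
      · exact ⟨0, by omega, s, Or.inl (by simp)⟩
      · exact ⟨0, by omega, (M.run t s A).1, Or.inr (by simp)⟩
      · obtain ⟨k, hk, s', h⟩ := h3 o ho
        refine ⟨k + 1, by omega, s', ?_⟩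
        have e : t + (A ++ B).length + k * (A.length + B.length) =
            t + (k + 1) * (A.length + B.length) := by
          rw [List.length_append]; ring
        rw [e] at h
        exact h

end Pool.Agent.H305rw
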