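import Pool.Agent.H305rw.Main

/-!
The trade-off for randomized algorithms.
-/

namespace Pool.Agent.H305rw

open MeasureTheory

section
variable {n d : ℕ} [NeZero d] (enc : Core d ↪ Fin n)

theorem walk_good (x : Bits d) (c₀ : Core d) {l ρ : ℕ} (h : 3 * l ^ 2 ≤ d ^ 2 * (ρ + 1)) :
    5 / 6 ≤ ((walkLaw (hard enc x) l (enc c₀)).toOuterMeasure (Good enc x c₀ l ρ)).toReal := by
  classical
  have hd : 0 < d := Nat.pos_of_ne_zero (NeZero.ne d)
  have h1 := few_reps hd h c₀.2.1
  have h2 : Sm l (fun r => if reps (steps (c₀.2.1 :: r)) ≤ ρ then 1 else 0) ≤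
      Sm l (fun is => if (cpath x c₀ is).map enc ∈ Good enc x c₀ l ρ then 1 else 0) := by
    refine Sm_mono_length l fun r hr => ?_
    by_cases hrep : reps (steps (c₀.2.1 :: r)) ≤ ρ
    · rw [if_pos hrep, if_pos ⟨r, hr, hrep, rfl⟩]
    · rw [if_neg hrep]; exact Nat.zero_le _
  rw [walk_prob, ENNReal.toReal_div, ENNReal.toReal_pow, ENNReal.toReal_natCast,
    ENNReal.toReal_natCast]
  have hdR : (0 : ℝ) < (d : ℝ) ^ l := by positivity
  rw [le_div_iff₀ hdR]
  have h3 : 5 * d ^ l ≤ 6 * Sm l (fun is =>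
      if (cpath x c₀ is).map enc ∈ Good enc x c₀ l ρ then 1 else 0) :=
    h1.trans (Nat.mul_le_mul_left _ h2)
  have h4 : (5 : ℝ) * (d : ℝ) ^ l ≤ 6 * ((Sm l (fun is =>
      if (cpath x c₀ is).map enc ∈ Good enc x c₀ l ρ then 1 else 0) : ℕ) : ℝ) := by
    exact_mod_cast h3
  linarith

include enc in
theorem tradeoff_raw {Ω σ : Type} [MeasurableSpace Ω] [Fintype σ] (μ : Measure Ω)
    [IsProbabilityMeasure μ] (alg : Fin n → Ω → Machine n σ) {p l r ρ : ℕ}
    (hl : (2 * p + 1) * (2 * (r + ρ) + 1) ≤ l) (hρ : 3 * l ^ 2 ≤ d ^ 2 * (ρ + 1))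
    (hsim : Simulates μ alg p l) :
    2 ^ r ≤ 2 * ((2 * p + 1) * Fintype.card σ) := by
  classical
  set c₀ : Core d := (false, 0, false) with hc₀
  set A : Bits d → Set Ω := fun x =>
    {ω | (alg (enc c₀) ω).output p (stream enc x) ∈ Good enc x c₀ l ρ} with hA
  have hmeas : ∀ x, MeasurableSet (A x) := by
    intro x
    have h1 := (hsim (hard enc x) (stream enc x) (enc c₀) (isStream enc x)).1
    have h2 : A x = ⋃ w ∈ Good enc x c₀ l ρ,
        {ω | (alg (enc c₀) ω).output p (stream enc x) = w} := by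
      ext ω
      simp [hA]
    rw [h2]
    exact MeasurableSet.biUnion (Set.to_countable _) fun w _ => h1 w
  have hlow : ∀ x, (1 : ℝ) / 2 ≤ μ.real (A x) := by
    intro x
    have h1 := (hsim (hard enc x) (stream enc x) (enc c₀) (isStream enc x)).2
      (Good enc x c₀ l ρ)
    have h2 := walk_good enc x c₀ hρ
    have h3 := (abs_le.1 h1).1
    have h4 : μ.real (A x) = μ.real {ω | (alg (enc c₀) ω).output p (stream enc x) ∈
      Good enc x c₀ l ρ} := rfl
    rw [h4]
    linarith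
  have hint : ∀ x, Integrable ((A x).indicator (fun _ => (1 : ℝ))) μ := fun x =>
    (integrable_const (1 : ℝ)).indicator (hmeas x)
  have hsum : ∫ ω, ∑ x, (A x).indicator (fun _ => (1 : ℝ)) ω ∂μ = ∑ x, μ.real (A x) := by
    rw [integral_finsetSum _ fun x _ => hint x]
    refine Finset.sum_congr rfl fun x _ => ?_
    exact integral_indicator_one (hmeas x)
  have hpt : ∀ ω, ∑ x, (A x).indicator (fun _ => (1 : ℝ)) ω ≤
      ((2 * p + 1) * Fintype.card σ * Fintype.card (Bits d) : ℕ) / (2 : ℝ) ^ r := by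
    intro ω
    have h1 := count_good enc (alg (enc c₀) ω) c₀ hl
    have h2 : ∑ x, (A x).indicator (fun _ => (1 : ℝ)) ω =
        ((Finset.univ.filter fun x : Bits d =>
          (alg (enc c₀) ω).output p (stream enc x) ∈ Good enc x c₀ l ρ).card : ℝ) := by
      rw [Finset.card_filter, Nat.cast_sum]
      refine Finset.sum_congr rfl fun x _ => ?_
      simp only [Set.indicator, hA, Set.mem_ofPred_eq]
      split_ifs <;> simp
    rw [h2, le_div_iff₀ (by positivity)]
    exact_mod_cast h1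
  have hup : ∑ x, μ.real (A x) ≤
      ((2 * p + 1) * Fintype.card σ * Fintype.card (Bits d) : ℕ) / (2 : ℝ) ^ r := by
    rw [← hsum]
    calc _ ≤ ∫ _ω, ((2 * p + 1) * Fintype.card σ * Fintype.card (Bits d) : ℕ) / (2 : ℝ) ^ r ∂μ :=
          integral_mono (integrable_finsetSum _ fun x _ => hint x) (integrable_const _) hpt
      _ = _ := by simp
  have hlow' : (Fintype.card (Bits d) : ℝ) / 2 ≤ ∑ x, μ.real (A x) := by
    calc _ = ∑ _x : Bits d, (1 : ℝ) / 2 := by simp [div_eq_mul_inv]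
      _ ≤ _ := Finset.sum_le_sum fun x _ => hlow x
  have hX : 0 < Fintype.card (Bits d) := Fintype.card_pos
  have hfin := hlow'.trans hup
  rw [le_div_iff₀ (by positivity), div_mul_eq_mul_div, div_le_iff₀ (by norm_num)] at hfin
  have hfin' : Fintype.card (Bits d) * 2 ^ r ≤
      (2 * p + 1) * Fintype.card σ * Fintype.card (Bits d) * 2 := by exact_mod_cast hfin
  refine Nat.le_of_mul_le_mul_left (c := Fintype.card (Bits d)) ?_ hX
  calc _ ≤ _ := hfin'
    _ = _ := by ring

end

end Pool.Agent.H305rw
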